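import Mathlib

/-!
# Median inequality for the sum-of-digits measures `P_t`, and for walks leaving a set of words
-/

set_option autoImplicit false

namespace Pool.Agent.Results.MP_23af5d_nt.MedianInequality

open Finset

/-- number of letters `c` minus number of the other letters of a word -/
def D (c : Bool) (m : List Bool) : ℤ := (m.count c : ℤ) - m.count (!c)

/-- probability of a word when its letters are independent and equal to `c` with probability `p` -/
noncomputable def W (c : Bool) (p : ℝ) (m : List Bool) : ℝ :=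
  p ^ m.count c * (1 - p) ^ m.count (!c)

/-- the exit words of a finite set `L` of words: the words outside `L` that arise from a word of
`L` by appending one letter -/
def exits (L : Finset (List Bool)) : Finset (List Bool) :=
  (L.image (· ++ [true]) ∪ L.image (· ++ [false])) \ L

/-- the measures `P_t` (as functions on `ℤ`), by the recursion `P_1 = δ_0`, `P_{2n} = P_n`,
`P_{2n+1}(d) = P_n(d-1)/2 + P_{n+1}(d+1)/2` -/
noncomputable def P (t : ℕ) : ℤ → ℝ :=
  if h : t ≤ 1 then fun d => if d = 0 then 1 else 0
  else if t % 2 = 0 then P (t / 2)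
  else fun d => P (t / 2) (d - 1) / 2 + P (t / 2 + 1) (d + 1) / 2
termination_by t
decreasing_by all_goals omega

lemma P_one : P 1 = fun d => if d = 0 then 1 else 0 := by
  rw [P]; simp

lemma P_even (n : ℕ) (hn : 1 ≤ n) : P (2 * n) = P n := by
  rw [P, dif_neg (by omega), if_pos (by omega)]
  congr 1; omega

lemma P_odd (n : ℕ) (hn : 1 ≤ n) (d : ℤ) :
    P (2 * n + 1) d = P n (d - 1) / 2 + P (n + 1) (d + 1) / 2 := by
  rw [P, dif_neg (by omega), if_neg (by omega)]
  have : (2 * n + 1) / 2 = n := by omega
  simp only [this]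

/-! ### words -/

lemma D_append (c b : Bool) (m : List Bool) :
    D c (m ++ [b]) = D c m + (if b = c then 1 else -1) := by
  unfold D
  rw [List.count_append, List.count_append]
  cases b <;> cases c <;> simp <;> ring

lemma D_cons (c b : Bool) (m : List Bool) :
    D c (b :: m) = D c m + (if b = c then 1 else -1) := by
  unfold D
  cases b <;> cases c <;> simp <;> ring

lemma W_append (c b : Bool) (p : ℝ) (m : List Bool) :
    W c p (m ++ [b]) = W c p m * (if b = c then p else 1 - p) := by
  unfold W
  rw [List.count_append, List.count_append]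
  cases b <;> cases c <;> simp [pow_succ] <;> ring

lemma W_cons (c b : Bool) (p : ℝ) (m : List Bool) :
    W c p (b :: m) = W c p m * (if b = c then p else 1 - p) := by
  unfold W
  cases b <;> cases c <;> simp [pow_succ] <;> ring

lemma mem_exits {L : Finset (List Bool)} {e : List Bool} :
    e ∈ exits L ↔ e ∉ L ∧ ∃ m ∈ L, ∃ b, e = m ++ [b] := by
  unfold exits
  simp only [mem_sdiff, mem_union, mem_image]
  constructor
  · rintro ⟨h | h, h2⟩
    · obtain ⟨m, hm, rfl⟩ := h
      exact ⟨h2, m, hm, true, rfl⟩
    · obtain ⟨m, hm, rfl⟩ := h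
      exact ⟨h2, m, hm, false, rfl⟩
  · rintro ⟨h2, m, hm, b, rfl⟩
    cases b
    · exact ⟨Or.inr ⟨m, hm, rfl⟩, h2⟩
    · exact ⟨Or.inl ⟨m, hm, rfl⟩, h2⟩

/-- summation over the words of `L` followed by one letter -/
lemma sum_children (L : Finset (List Bool)) (h0 : [] ∈ L) (hp : ∀ m b, m ++ [b] ∈ L → m ∈ L)
    (f : List Bool → ℝ) :
    ∑ e ∈ exits L, f e + ∑ m ∈ L, f m = f [] + ∑ m ∈ L, (f (m ++ [true]) + f (m ++ [false])) := by
  classical
  set A := L.image (· ++ [true]) ∪ L.image (· ++ [false]) with hA
  have hdis : Disjoint (L.image (· ++ [true])) (L.image (· ++ [false])) := by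
    rw [Finset.disjoint_left]
    intro x hx hy
    rw [mem_image] at hx hy
    obtain ⟨a, _, rfl⟩ := hx
    obtain ⟨b, _, hb⟩ := hy
    have := List.append_inj' hb rfl
    simp at this
  have inj : ∀ b : Bool, Set.InjOn (fun m : List Bool => m ++ [b]) (L : Set (List Bool)) := by
    intro b x _ y _ h
    exact (List.append_inj' h rfl).1
  have hsum : ∑ e ∈ A, f e = ∑ m ∈ L, (f (m ++ [true]) + f (m ++ [false])) := by
    rw [hA, sum_union hdis, sum_image (inj true), sum_image (inj false), sum_add_distrib]
  have hint : A ∩ L = L.erase [] := by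
    ext x
    rw [mem_inter, mem_erase]
    constructor
    · rintro ⟨h1, h2⟩
      refine ⟨?_, h2⟩
      rintro rfl
      rw [hA, mem_union, mem_image, mem_image] at h1
      rcases h1 with ⟨a, _, ha⟩ | ⟨a, _, ha⟩ <;> simp at ha
    · rintro ⟨h1, h2⟩
      refine ⟨?_, h2⟩
      obtain ⟨m, b, rfl⟩ : ∃ m b, x = m ++ [b] :=
        ⟨x.dropLast, x.getLast h1, (List.dropLast_append_getLast h1).symm⟩
      have hm := hp m b h2
      rw [hA, mem_union, mem_image, mem_image]
      cases b
      · exact Or.inr ⟨m, hm, rfl⟩
      · exact Or.inl ⟨m, hm, rfl⟩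
  have hsplit : ∑ e ∈ exits L, f e + ∑ e ∈ A ∩ L, f e = ∑ e ∈ A, f e := by
    unfold exits
    rw [← hA, ← sum_inter_add_sum_sdiff A L]; ring
  rw [hint] at hsplit
  have := add_sum_erase L f h0
  linarith

/-- change of the expectation of `h (D c ·)` when the walk is followed until it leaves `L` -/
lemma dynkin (c : Bool) (p : ℝ) (L : Finset (List Bool)) (h0 : [] ∈ L)
    (hp : ∀ m b, m ++ [b] ∈ L → m ∈ L) (h : ℤ → ℝ) :
    ∑ e ∈ exits L, W c p e * h (D c e) =
      h 0 + ∑ m ∈ L, W c p m * (p * h (D c m + 1) + (1 - p) * h (D c m - 1) - h (D c m)) := by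
  have := sum_children L h0 hp (fun e => W c p e * h (D c e))
  have e0 : W c p [] * h (D c []) = h 0 := by simp [W, D]
  rw [e0] at this
  have e1 : ∀ m : List Bool, W c p (m ++ [true]) * h (D c (m ++ [true])) +
      W c p (m ++ [false]) * h (D c (m ++ [false])) =
      W c p m * (p * h (D c m + 1) + (1 - p) * h (D c m - 1)) := by
    intro m
    rw [W_append, W_append, D_append, D_append]
    cases c
    · simp only [Bool.true_eq_false, if_false, if_true]
      rw [← sub_eq_add_neg]; ring
    · simp only [Bool.false_eq_true, if_false, if_true]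
      rw [← sub_eq_add_neg]; ring
  simp only [e1] at this
  have e2 : ∑ m ∈ L, W c p m * (p * h (D c m + 1) + (1 - p) * h (D c m - 1) - h (D c m)) =
      ∑ m ∈ L, W c p m * (p * h (D c m + 1) + (1 - p) * h (D c m - 1)) -
        ∑ m ∈ L, W c p m * h (D c m) := by
    rw [← sum_sub_distrib]
    exact sum_congr rfl fun m _ => by ring
  rw [e2]
  linarith

/-! ### counting -/

/-- the words of `L` with `i` letters `c` and `j` other letters -/
def lev (c : Bool) (L : Finset (List Bool)) (i j : ℕ) : Finset (List Bool) :=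
  L.filter fun m => m.count c = i ∧ m.count (!c) = j

lemma length_eq (c : Bool) (m : List Bool) : m.length = m.count c + m.count (!c) := by
  induction m with
  | nil => rfl
  | cons b m ih =>
    rw [List.length_cons, ih, List.count_cons, List.count_cons]
    have : (if (b == c) = true then 1 else 0) + (if (b == !c) = true then 1 else 0) = 1 := by
      cases b <;> cases c <;> rfl
    omega

/-- deletion of the letter at position `k` -/
def del (k : ℕ) (m : List Bool) : List Bool := m.take k ++ m.drop (k + 1)

/-- insertion of a letter `c` at position `k` -/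
def ins (c : Bool) (k : ℕ) (m : List Bool) : List Bool := m.take k ++ c :: m.drop k

lemma eq_ins_del (c : Bool) (k : ℕ) (m : List Bool) (h : m[k]? = some c) :
    m = m.take k ++ c :: m.drop (k + 1) := by
  obtain ⟨hk, hc⟩ := List.getElem?_eq_some_iff.1 h
  conv_lhs => rw [← List.take_append_drop k m]
  rw [List.drop_eq_getElem_cons hk, hc]

lemma ins_del (c : Bool) (k : ℕ) (m : List Bool) (h : m[k]? = some c) : ins c k (del k m) = m := by
  obtain ⟨hk, hc⟩ := List.getElem?_eq_some_iff.1 h
  have hl : (m.take k).length = k := by simp; omega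
  unfold ins del
  rw [List.take_left' hl, List.drop_left' hl]
  exact (eq_ins_del c k m h).symm

lemma del_ins (c : Bool) (k : ℕ) (m : List Bool) (h : k ≤ m.length) : del k (ins c k m) = m := by
  have hl : (m.take k).length = k := by simp; omega
  unfold ins del
  rw [List.take_left' hl]
  have : List.drop (k + 1) (List.take k m ++ c :: List.drop k m) = List.drop k m := by
    rw [List.drop_append, hl]
    simp [hl]
  rw [this, List.take_append_drop]

lemma getElem_ins (c : Bool) (k : ℕ) (m : List Bool) (h : k ≤ m.length) :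
    (ins c k m)[k]? = some c := by
  have hl : (m.take k).length = k := by simp; omega
  unfold ins
  rw [List.getElem?_append_right (by omega), hl]
  simp

lemma count_ins (c b : Bool) (k : ℕ) (m : List Bool) :
    (ins c k m).count b = m.count b + if c = b then 1 else 0 := by
  unfold ins
  conv_rhs => rw [← List.take_append_drop k m]
  rw [List.count_append, List.count_append, List.count_cons]
  simp only [beq_iff_eq]
  ring

lemma sum_pos (c : Bool) (m : List Bool) :
    ∑ k ∈ range m.length, (if m[k]? = some c then 1 else 0) = m.count c := by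
  induction m with
  | nil => simp
  | cons b m ih =>
    rw [List.length_cons, sum_range_succ', List.count_cons]
    simp only [List.getElem?_cons_succ, List.getElem?_cons_zero, Option.some.injEq, beq_iff_eq]
    rw [ih]

/-- **double counting** of the pairs of a word and the position of a letter `c` in it -/
lemma double_count (c : Bool) (L : Finset (List Bool))
    (hd : ∀ a b, a ++ c :: b ∈ L → a ++ b ∈ L) (i j : ℕ) :
    (i + 1) * (lev c L (i + 1) j).card =
      ∑ k ∈ range (i + 1 + j), ((lev c L i j).filter fun m => ins c k m ∈ L).card := by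
  have h1 : ∀ k ∈ range (i + 1 + j), ((lev c L i j).filter fun m => ins c k m ∈ L).card =
      ((lev c L (i + 1) j).filter fun m => m[k]? = some c).card := by
    intro k hk
    rw [mem_range] at hk
    refine Finset.card_nbij' (fun m => ins c k m) (fun m => del k m) ?_ ?_ ?_ ?_
    · intro m hm
      simp only [lev, coe_filter, mem_filter, Set.mem_ofPred_eq] at hm ⊢
      obtain ⟨⟨hm, hi, hj⟩, hin⟩ := hm
      have hlen := length_eq c m
      refine ⟨⟨hin, ?_, ?_⟩, getElem_ins c k m (by omega)⟩
      · rw [count_ins, if_pos rfl, hi]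
      · rw [count_ins, if_neg (by cases c <;> simp), hj]; rfl
    · intro m hm
      simp only [lev, coe_filter, mem_filter, Set.mem_ofPred_eq] at hm ⊢
      obtain ⟨⟨hm, hi, hj⟩, hk'⟩ := hm
      have hid := ins_del c k m hk'
      have c1 := count_ins c c k (del k m)
      have c2 := count_ins c (!c) k (del k m)
      rw [hid, if_pos rfl] at c1
      rw [hid, if_neg (by cases c <;> simp)] at c2
      refine ⟨⟨?_, by omega, by omega⟩, by rw [hid]; exact hm⟩
      rw [eq_ins_del c k m hk'] at hm
      exact hd _ _ hm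
    · intro m hm
      simp only [lev, coe_filter, mem_filter, Set.mem_ofPred_eq] at hm
      obtain ⟨⟨hm, hi, hj⟩, hin⟩ := hm
      have hlen := length_eq c m
      exact del_ins c k m (by omega)
    · intro m hm
      simp only [lev, coe_filter, mem_filter, Set.mem_ofPred_eq] at hm
      exact ins_del c k m hm.2
  rw [sum_congr rfl h1]
  simp only [card_filter]
  rw [sum_comm]
  have h2 : ∀ m ∈ lev c L (i + 1) j,
      ∑ k ∈ range (i + 1 + j), (if m[k]? = some c then 1 else 0) = i + 1 := by
    intro m hm
    simp only [lev, mem_filter] at hm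
    have hlen := length_eq c m
    rw [show i + 1 + j = m.length by omega, sum_pos, hm.2.1]
  rw [sum_congr rfl h2, sum_const, smul_eq_mul, mul_comm]

/-- number of words of `L` with `i` letters `c` and `j` other letters -/
def N (c : Bool) (L : Finset (List Bool)) (i j : ℕ) : ℕ := (lev c L i j).card

lemma N_diag (c : Bool) (L : Finset (List Bool))
    (hd : ∀ a b, a ++ c :: b ∈ L → a ++ b ∈ L) (k : ℕ) :
    N c L (k + 1) (k + 1) ≤ 2 * N c L k (k + 1) ∧
    (N c L (k + 1) (k + 1) = 2 * N c L k (k + 1) ↔
      ∀ m ∈ lev c L k (k + 1), ∀ a b, m = a ++ b → a ++ c :: b ∈ L) := by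
  have h := double_count c L hd k (k + 1)
  have hle : ∀ i ∈ range (k + 1 + (k + 1)),
      ((lev c L k (k + 1)).filter fun m => ins c i m ∈ L).card ≤ (lev c L k (k + 1)).card :=
    fun i _ => card_filter_le _ _
  have hs := sum_le_sum hle
  rw [sum_const, card_range, smul_eq_mul] at hs
  have e : (k + 1 + (k + 1)) * (lev c L k (k + 1)).card =
      (k + 1) * (2 * (lev c L k (k + 1)).card) := by ring
  constructor
  · unfold N
    rw [← h, e] at hs
    exact Nat.le_of_mul_le_mul_left hs (Nat.succ_pos k)
  · constructor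
    · intro heq m hm a b hab
      have hsum : ∑ i ∈ range (k + 1 + (k + 1)),
          ((lev c L k (k + 1)).filter fun m => ins c i m ∈ L).card =
          ∑ i ∈ range (k + 1 + (k + 1)), (lev c L k (k + 1)).card := by
        rw [← h, sum_const, card_range, smul_eq_mul, e]
        unfold N at heq
        rw [heq]
      have hall := (sum_eq_sum_iff_of_le hle).1 hsum
      have hm' := hm
      simp only [lev, mem_filter] at hm'
      have hlen := length_eq c m
      have hla : a.length ≤ m.length := by rw [hab]; simp
      have := hall a.length (mem_range.2 (by omega))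
      have h3 := (card_filter_eq_iff.1 this) m hm
      unfold ins at h3
      rw [hab] at h3
      simpa using h3
    · intro hall
      have h4 : ∀ i ∈ range (k + 1 + (k + 1)),
          ((lev c L k (k + 1)).filter fun m => ins c i m ∈ L).card = (lev c L k (k + 1)).card := by
        intro i _
        rw [card_filter_eq_iff]
        intro m hm
        exact hall m hm _ _ (List.take_append_drop i m).symm
      rw [sum_congr rfl h4, sum_const, card_range, smul_eq_mul, e] at h
      unfold N
      exact Nat.eq_of_mul_eq_mul_left (Nat.succ_pos k) h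

/-! ### the exact formula -/

lemma sum_minus_one (c : Bool) (p : ℝ) (L : Finset (List Bool)) (K : ℕ)
    (hK : ∀ m ∈ L, m.length < K) :
    ∑ m ∈ L, (if D c m = -1 then W c p m else 0) =
      ∑ k ∈ range K, p ^ k * (1 - p) ^ (k + 1) * (N c L k (k + 1) : ℝ) := by
  have h1 : ∀ m ∈ L, (if D c m = -1 then W c p m else 0) = ∑ k ∈ range K,
      (if m.count c = k ∧ m.count (!c) = k + 1 then p ^ k * (1 - p) ^ (k + 1) else 0) := by
    intro m hm
    have hl := hK m hm
    have hlen := length_eq c m
    by_cases hD : D c m = -1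
    · have hD' := hD
      unfold D at hD'
      rw [if_pos hD, sum_eq_single (m.count c)]
      · rw [if_pos ⟨rfl, by omega⟩]
        unfold W
        rw [show m.count (!c) = m.count c + 1 by omega]
      · intro k _ hk
        rw [if_neg (by rintro ⟨h, -⟩; exact hk h.symm)]
      · intro h
        exact absurd (mem_range.2 (by omega)) h
    · rw [if_neg hD]
      symm
      refine sum_eq_zero fun k _ => if_neg ?_
      rintro ⟨h1, h2⟩
      apply hD
      unfold D
      omega
  rw [sum_congr rfl h1, sum_comm]
  refine sum_congr rfl fun k _ => ?_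
  rw [← sum_filter, sum_const, nsmul_eq_mul]
  unfold N lev
  ring

lemma sum_zero (c : Bool) (p : ℝ) (L : Finset (List Bool)) (h0 : [] ∈ L) (K : ℕ)
    (hK : ∀ m ∈ L, m.length < K) :
    ∑ m ∈ L, (if D c m = 0 then W c p m else 0) =
      1 + ∑ k ∈ range K, (p * (1 - p)) ^ (k + 1) * (N c L (k + 1) (k + 1) : ℝ) := by
  have h1 : ∀ m ∈ L, (if D c m = 0 then W c p m else 0) = (if m = [] then 1 else 0) +
      ∑ k ∈ range K,
      (if m.count c = k + 1 ∧ m.count (!c) = k + 1 then (p * (1 - p)) ^ (k + 1) else 0) := by
    intro m hm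
    have hl := hK m hm
    have hlen := length_eq c m
    by_cases hm0 : m = []
    · subst hm0
      simp [D, W]
    have hpos : 0 < m.length := List.length_pos_iff.2 hm0
    rw [if_neg hm0, zero_add]
    by_cases hD : D c m = 0
    · have hD' := hD
      unfold D at hD'
      rw [if_pos hD, sum_eq_single (m.count c - 1)]
      · rw [if_pos ⟨by omega, by omega⟩]
        unfold W
        rw [show m.count (!c) = m.count c by omega, ← mul_pow]
        congr 1
        omega
      · intro k _ hk
        rw [if_neg (by rintro ⟨h, -⟩; omega)]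
      · intro h
        exact absurd (mem_range.2 (by omega)) h
    · rw [if_neg hD]
      symm
      refine sum_eq_zero fun k _ => if_neg ?_
      rintro ⟨h1, h2⟩
      apply hD
      unfold D
      omega
  rw [sum_congr rfl h1, sum_add_distrib, sum_ite_eq' L [] , if_pos h0, sum_comm]
  congr 1
  refine sum_congr rfl fun k _ => ?_
  rw [← sum_filter, sum_const, nsmul_eq_mul]
  unfold N lev
  ring

lemma exit_formula (c : Bool) (p : ℝ) (L : Finset (List Bool)) (h0 : [] ∈ L)
    (hp : ∀ m b, m ++ [b] ∈ L → m ∈ L) (K : ℕ) (hK : ∀ m ∈ L, m.length < K) :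
    ∑ e ∈ (exits L).filter (fun e => 0 ≤ D c e), W c p e =
      p + ∑ k ∈ range K, (p * (1 - p)) ^ (k + 1) *
        ((N c L k (k + 1) : ℝ) - (1 - p) * (N c L (k + 1) (k + 1) : ℝ)) := by
  have h := dynkin c p L h0 hp (fun d => if 0 ≤ d then 1 else 0)
  have e1 : ∑ e ∈ (exits L).filter (fun e => 0 ≤ D c e), W c p e =
      ∑ e ∈ exits L, W c p e * (if 0 ≤ D c e then 1 else 0) := by
    rw [sum_filter]
    exact sum_congr rfl fun e _ => by split_ifs <;> ring
  rw [e1, h, if_pos le_rfl]
  have e2 : ∀ m ∈ L, W c p m * (p * (if 0 ≤ D c m + 1 then 1 else 0) +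
      (1 - p) * (if 0 ≤ D c m - 1 then 1 else 0) - (if 0 ≤ D c m then 1 else 0)) =
      p * (if D c m = -1 then W c p m else 0) - (1 - p) * (if D c m = 0 then W c p m else 0) := by
    intro m _
    rcases lt_trichotomy (D c m) (-1) with h | h | h
    · rw [if_neg (by omega), if_neg (by omega), if_neg (by omega), if_neg (by omega),
        if_neg (by omega)]
      ring
    · rw [if_pos (by omega), if_neg (by omega), if_neg (by omega), if_pos h, if_neg (by omega)]
      ring
    · rcases eq_or_ne (D c m) 0 with h' | h'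
      · rw [if_pos (by omega), if_neg (by omega), if_pos (by omega), if_neg (by omega), if_pos h']
        ring
      · rw [if_pos (by omega), if_pos (by omega), if_pos (by omega), if_neg (by omega), if_neg h']
        ring
  rw [sum_congr rfl e2, sum_sub_distrib, ← mul_sum, ← mul_sum, sum_minus_one c p L K hK,
    sum_zero c p L h0 K hK]
  rw [mul_add, mul_sum, mul_sum]
  have e3 : ∑ k ∈ range K, (p * (1 - p)) ^ (k + 1) *
        ((N c L k (k + 1) : ℝ) - (1 - p) * (N c L (k + 1) (k + 1) : ℝ)) =
      ∑ k ∈ range K, p * (p ^ k * (1 - p) ^ (k + 1) * (N c L k (k + 1) : ℝ)) -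
      ∑ k ∈ range K, (1 - p) * ((p * (1 - p)) ^ (k + 1) * (N c L (k + 1) (k + 1) : ℝ)) := by
    rw [← sum_sub_distrib]
    refine sum_congr rfl fun k _ => ?_
    rw [mul_pow]; ring
  rw [e3]
  ring

/-- **General inequality** -/
theorem exit_ineq (c : Bool) (p : ℝ) (hp2 : 1 / 2 ≤ p) (hp1 : p < 1) (L : Finset (List Bool))
    (h0 : [] ∈ L) (hp : ∀ m b, m ++ [b] ∈ L → m ∈ L)
    (hd : ∀ a b, a ++ c :: b ∈ L → a ++ b ∈ L) :
    p ≤ ∑ e ∈ (exits L).filter (fun e => 0 ≤ D c e), W c p e ∧
    (∑ e ∈ (exits L).filter (fun e => 0 ≤ D c e), W c p e = p ↔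
      ((∀ m ∈ L, D c m ≠ -1) ∨
        (p = 1 / 2 ∧ ∀ a b, a ++ b ∈ L → D c (a ++ b) = -1 → a ++ c :: b ∈ L))) := by
  obtain ⟨K, hK⟩ : ∃ K, ∀ m ∈ L, m.length < K :=
    ⟨L.sup List.length + 1, fun m hm => Nat.lt_succ_of_le (le_sup (f := List.length) hm)⟩
  rw [exit_formula c p L h0 hp K hK]
  have hq : 0 < p * (1 - p) := mul_pos (by linarith) (by linarith)
  have hterm : ∀ k, (0:ℝ) ≤ (N c L k (k + 1) : ℝ) - (1 - p) * (N c L (k + 1) (k + 1) : ℝ) ∧
      ((N c L k (k + 1) : ℝ) - (1 - p) * (N c L (k + 1) (k + 1) : ℝ) = 0 ↔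
        (N c L k (k + 1) = 0 ∨ (p = 1 / 2 ∧ N c L (k + 1) (k + 1) = 2 * N c L k (k + 1)))) := by
    intro k
    have h1 := (N_diag c L hd k).1
    have h1' : (N c L (k + 1) (k + 1) : ℝ) ≤ 2 * (N c L k (k + 1) : ℝ) := by exact_mod_cast h1
    have h2 : (0:ℝ) ≤ (N c L k (k + 1) : ℝ) := Nat.cast_nonneg _
    have h3 : (0:ℝ) ≤ (N c L (k + 1) (k + 1) : ℝ) := Nat.cast_nonneg _
    constructor
    · nlinarith
    · constructor
      · intro h
        by_cases hN : N c L k (k + 1) = 0
        · exact Or.inl hN
        · right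
          have hN' : (0:ℝ) < (N c L k (k + 1) : ℝ) := by
            exact_mod_cast Nat.pos_of_ne_zero hN
          have hp' : p = 1 / 2 := by nlinarith
          refine ⟨hp', ?_⟩
          rw [hp'] at h
          have : (N c L (k + 1) (k + 1) : ℝ) = 2 * (N c L k (k + 1) : ℝ) := by linarith
          exact_mod_cast this
      · rintro (h | ⟨h, h'⟩)
        · have h4 : (N c L (k + 1) (k + 1)) = 0 := by omega
          rw [h, h4]; simp
        · rw [h, h']; push_cast; ring
  have hterm2 : ∀ k, 0 ≤ (p * (1 - p)) ^ (k + 1) *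
      ((N c L k (k + 1) : ℝ) - (1 - p) * (N c L (k + 1) (k + 1) : ℝ)) :=
    fun k => mul_nonneg (by positivity) (hterm k).1
  constructor
  · have := sum_nonneg fun k (_ : k ∈ range K) => hterm2 k
    linarith
  · have hzero : (p + ∑ k ∈ range K, (p * (1 - p)) ^ (k + 1) *
        ((N c L k (k + 1) : ℝ) - (1 - p) * (N c L (k + 1) (k + 1) : ℝ)) = p) ↔
        ∀ k ∈ range K, (N c L k (k + 1) = 0 ∨
          (p = 1 / 2 ∧ N c L (k + 1) (k + 1) = 2 * N c L k (k + 1))) := by
      rw [add_eq_left, sum_eq_zero_iff_of_nonneg fun k _ => hterm2 k]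
      refine forall₂_congr fun k _ => ?_
      rw [mul_eq_zero, or_iff_right (by positivity), (hterm k).2]
    rw [hzero]
    have memlev : ∀ m ∈ L, D c m = -1 → ∃ k ∈ range K, m ∈ lev c L k (k + 1) := by
      intro m hm hD
      have hl := hK m hm
      have hlen := length_eq c m
      unfold D at hD
      refine ⟨m.count c, mem_range.2 (by omega), ?_⟩
      unfold lev
      rw [mem_filter]
      exact ⟨hm, rfl, by omega⟩
    constructor
    · intro h
      by_cases hne : ∀ m ∈ L, D c m ≠ -1
      · exact Or.inl hne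
      · right
        push Not at hne
        obtain ⟨m0, hm0, hD0⟩ := hne
        have key : ∀ m ∈ L, D c m = -1 → p = 1 / 2 ∧
            ∀ a b, m = a ++ b → a ++ c :: b ∈ L := by
          intro m hm hD
          obtain ⟨k, hk, hmk⟩ := memlev m hm hD
          rcases h k hk with h | h
          · unfold N at h
            rw [card_eq_zero] at h
            rw [h] at hmk
            simp at hmk
          · exact ⟨h.1, ((N_diag c L hd k).2.1 h.2) m hmk⟩
        exact ⟨(key m0 hm0 hD0).1, fun a b hab hD => (key _ hab hD).2 a b rfl⟩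
    · rintro (h | ⟨h, h'⟩) k hk
      · left
        unfold N
        rw [card_eq_zero, eq_empty_iff_forall_notMem]
        intro m hm
        unfold lev at hm
        rw [mem_filter] at hm
        refine h m hm.1 ?_
        unfold D
        omega
      · right
        refine ⟨h, (N_diag c L hd k).2.2 ?_⟩
        intro m hm a b hab
        unfold lev at hm
        rw [mem_filter] at hm
        refine h' a b (hab ▸ hm.1) ?_
        rw [← hab]
        unfold D
        omega

/-! ### the measures `P_t` as exit laws -/

/-- the words `m` with `b m` in `L` -/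
noncomputable def quo (L : Finset (List Bool)) (b : Bool) : Finset (List Bool) :=
  L.preimage (fun m => b :: m) (fun _ _ _ _ h => (List.cons.inj h).2)

lemma mem_quo {L : Finset (List Bool)} {b : Bool} {m : List Bool} :
    m ∈ quo L b ↔ b :: m ∈ L := by
  unfold quo
  exact Finset.mem_preimage

/-- exit words, with the convention that the walk stops at once if the empty word is not in `L` -/
def ex (L : Finset (List Bool)) : Finset (List Bool) := if [] ∈ L then exits L else {[]}

lemma nil_notMem_of_quo {L : Finset (List Bool)} (hp : ∀ m b, m ++ [b] ∈ L → m ∈ L)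
    (m : List Bool) (hm : m ∈ L) : [] ∈ L := by
  induction m using List.reverseRecOn with
  | nil => exact hm
  | append_singleton m b ih => exact ih (hp m b hm)

lemma quo_pref {L : Finset (List Bool)} (hp : ∀ m b, m ++ [b] ∈ L → m ∈ L) (c : Bool) :
    ∀ m b, m ++ [b] ∈ quo L c → m ∈ quo L c := by
  intro m b h
  rw [mem_quo] at h ⊢
  exact hp (c :: m) b h

lemma cons_mem_exits {L : Finset (List Bool)} (h0 : [] ∈ L) (hp : ∀ m b, m ++ [b] ∈ L → m ∈ L)
    (c : Bool) (e : List Bool) : c :: e ∈ exits L ↔ e ∈ ex (quo L c) := by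
  rw [mem_exits]
  unfold ex
  by_cases hq : [] ∈ quo L c
  · rw [if_pos hq, mem_exits, mem_quo]
    refine and_congr_right fun hne => ?_
    constructor
    · rintro ⟨m, hm, b, hb⟩
      rcases m with _ | ⟨x, m⟩
      · simp only [List.nil_append, List.cons.injEq] at hb
        obtain ⟨h1, h2⟩ := hb
        subst h2
        exact absurd (mem_quo.1 hq) hne
      · simp only [List.cons_append, List.cons.injEq] at hb
        obtain ⟨rfl, hb⟩ := hb
        exact ⟨m, mem_quo.2 hm, b, hb⟩
    · rintro ⟨m, hm, b, rfl⟩
      exact ⟨c :: m, mem_quo.1 hm, b, rfl⟩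
  · rw [if_neg hq, mem_singleton]
    constructor
    · rintro ⟨_, m, hm, b, hb⟩
      rcases m with _ | ⟨x, m⟩
      · simp only [List.nil_append, List.cons.injEq] at hb
        exact hb.2
      · exfalso
        simp only [List.cons_append, List.cons.injEq] at hb
        obtain ⟨rfl, hb⟩ := hb
        exact hq (nil_notMem_of_quo (quo_pref hp c) m (mem_quo.2 hm))
    · rintro rfl
      exact ⟨fun h => hq (mem_quo.2 h), [], h0, c, rfl⟩

lemma sum_ex {L : Finset (List Bool)} (h0 : [] ∈ L) (hp : ∀ m b, m ++ [b] ∈ L → m ∈ L)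
    (f : List Bool → ℝ) :
    ∑ e ∈ exits L, f e = ∑ e ∈ ex (quo L true), f (true :: e) +
      ∑ e ∈ ex (quo L false), f (false :: e) := by
  have hE : exits L = (ex (quo L true)).image (fun m => true :: m) ∪
      (ex (quo L false)).image (fun m => false :: m) := by
    ext e
    rw [mem_union, mem_image, mem_image]
    constructor
    · intro he
      rcases e with _ | ⟨c, e⟩
      · exact absurd h0 (mem_exits.1 he).1
      · have := (cons_mem_exits h0 hp c e).1 he
        cases c
        · exact Or.inr ⟨e, this, rfl⟩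
        · exact Or.inl ⟨e, this, rfl⟩
    · rintro (⟨e, he, rfl⟩ | ⟨e, he, rfl⟩)
      · exact (cons_mem_exits h0 hp true e).2 he
      · exact (cons_mem_exits h0 hp false e).2 he
  have hdis : Disjoint ((ex (quo L true)).image (fun m => true :: m))
      ((ex (quo L false)).image (fun m => false :: m)) := by
    rw [Finset.disjoint_left]
    intro x hx hy
    rw [mem_image] at hx hy
    obtain ⟨a, _, rfl⟩ := hx
    obtain ⟨b, _, hb⟩ := hy
    simp at hb
  rw [hE, sum_union hdis, sum_image (fun _ _ _ _ h => (List.cons.inj h).2),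
    sum_image (fun _ _ _ _ h => (List.cons.inj h).2)]

/-- law of the walk (with fair steps) at the exit from `L` -/
noncomputable def F (L : Finset (List Bool)) (d : ℤ) : ℝ :=
  ∑ e ∈ ex L, if D true e = d then W true (1 / 2) e else 0

lemma F_step {L : Finset (List Bool)} (h0 : [] ∈ L) (hp : ∀ m b, m ++ [b] ∈ L → m ∈ L) (d : ℤ) :
    F L d = F (quo L true) (d - 1) / 2 + F (quo L false) (d + 1) / 2 := by
  have e : ex L = exits L := by unfold ex; rw [if_pos h0]
  unfold F
  rw [e, sum_ex h0 hp, sum_div, sum_div]
  congr 1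
  · refine sum_congr rfl fun e _ => ?_
    rw [D_cons, W_cons, if_pos rfl, if_pos rfl]
    by_cases h : D true e = d - 1
    · rw [if_pos h, if_pos (by omega)]; ring
    · rw [if_neg h, if_neg (by omega)]; simp
  · refine sum_congr rfl fun e _ => ?_
    have ft : ¬ (false = true) := by simp
    rw [D_cons, W_cons, if_neg ft, if_neg ft]
    by_cases h : D true e = d + 1
    · rw [if_pos h, if_pos (by omega)]; ring
    · rw [if_neg h, if_neg (by omega)]; simp

lemma F_empty (d : ℤ) : F ∅ d = if d = 0 then 1 else 0 := by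
  unfold F ex
  simp [D, W, eq_comm]

/-- the set of the (scattered) subwords of `w` -/
def subw (w : List Bool) : Finset (List Bool) := w.sublists.toFinset

lemma mem_subw {w m : List Bool} : m ∈ subw w ↔ m.Sublist w := by simp [subw]

lemma nil_subw (w : List Bool) : [] ∈ subw w := mem_subw.2 (List.nil_sublist w)

lemma subw_pref (w : List Bool) : ∀ m b, m ++ [b] ∈ subw w → m ∈ subw w := by
  intro m b h
  rw [mem_subw] at h ⊢
  exact (List.sublist_append_left m [b]).trans h

lemma subw_del (w : List Bool) (c : Bool) : ∀ a b, a ++ c :: b ∈ subw w → a ++ b ∈ subw w := by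
  intro a b h
  rw [mem_subw] at h ⊢
  exact (List.Sublist.append_left (List.sublist_cons_self c b) a).trans h

lemma quo_subw_same (b : Bool) (w : List Bool) : quo (subw (b :: w)) b = subw w := by
  ext m
  rw [mem_quo, mem_subw, mem_subw, List.cons_sublist_cons]

lemma quo_subw_diff (b c : Bool) (w : List Bool) (h : c ≠ b) :
    quo (subw (b :: w)) c = quo (subw w) c := by
  ext m
  rw [mem_quo, mem_quo, mem_subw, mem_subw]
  constructor
  · intro h'
    rcases h' with _ | h' | h'
    · assumption
    · exact absurd rfl h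
  · intro h'
    exact h'.cons b

/-- the number whose binary digits are, from the least significant one, those of `w` and a
leading `1` -/
def val : List Bool → ℕ
  | [] => 1
  | b :: w => 2 * val w + b.toNat

lemma val_pos (w : List Bool) : 1 ≤ val w := by
  induction w with
  | nil => exact le_rfl
  | cons b w ih => simp only [val]; omega

lemma exists_val (n : ℕ) (hn : 1 ≤ n) : ∃ w, val w = n := by
  induction n using Nat.strong_induction_on with
  | _ n ih =>
    rcases Nat.eq_or_lt_of_le hn with h | h
    · exact ⟨[], h⟩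
    · obtain ⟨w, hw⟩ := ih (n / 2) (by omega) (by omega)
      rcases Nat.mod_two_eq_zero_or_one n with h2 | h2
      · exact ⟨false :: w, by simp only [val, hw, Bool.toNat_false]; omega⟩
      · exact ⟨true :: w, by simp only [val, hw, Bool.toNat_true]; omega⟩

lemma P_pair (w : List Bool) :
    P (val w) = F (quo (subw w) true) ∧ P (val w + 1) = F (quo (subw w) false) := by
  induction w with
  | nil =>
    have h : ∀ c, quo (subw []) c = ∅ := by
      intro c
      rw [eq_empty_iff_forall_notMem]
      intro m hm
      rw [mem_quo, mem_subw] at hm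
      simp at hm
    have h1 : P (1 + 1) = P 1 := P_even 1 le_rfl
    rw [h, h]
    simp only [val]
    rw [h1, P_one]
    constructor <;> (funext d; rw [F_empty])
  | cons b w ih =>
    obtain ⟨ih1, ih2⟩ := ih
    have key : P (2 * val w + 1) = F (subw w) := by
      funext d
      rw [P_odd _ (val_pos w), ih1, ih2, F_step (nil_subw w) (subw_pref w)]
    cases b
    · rw [quo_subw_same, quo_subw_diff false true w (by simp)]
      simp only [val, Bool.toNat_false, add_zero]
      rw [P_even _ (val_pos w)]
      exact ⟨ih1, key⟩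
    · rw [quo_subw_same, quo_subw_diff true false w (by simp)]
      simp only [val, Bool.toNat_true]
      rw [show 2 * val w + 1 + 1 = 2 * (val w + 1) by ring, P_even _ (by omega)]
      exact ⟨key, ih2⟩

lemma P_odd_eq (w : List Bool) : P (2 * val w + 1) = F (subw w) := by
  funext d
  rw [P_odd _ (val_pos w), (P_pair w).1, (P_pair w).2, F_step (nil_subw w) (subw_pref w)]

lemma P_nonneg_sum (t : ℕ) (ht : 1 ≤ t) : (∀ d, 0 ≤ P t d) ∧ HasSum (P t) 1 := by
  induction t using Nat.strong_induction_on with
  | _ t ih =>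
    rcases Nat.eq_or_lt_of_le ht with h | h
    · rw [← h, P_one]
      refine ⟨fun d => by dsimp only; split_ifs <;> norm_num, ?_⟩
      exact hasSum_ite_eq 0 1
    · obtain ⟨n, hn⟩ : ∃ n, t = 2 * n ∨ t = 2 * n + 1 := ⟨t / 2, by omega⟩
      rcases hn with rfl | rfl
      · rw [P_even n (by omega)]
        exact ih n (by omega) (by omega)
      · obtain ⟨a1, a2⟩ := ih n (by omega) (by omega)
        obtain ⟨b1, b2⟩ := ih (n + 1) (by omega) (by omega)
        refine ⟨fun d => ?_, ?_⟩
        · rw [P_odd n (by omega)]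
          have := a1 (d - 1)
          have := b1 (d + 1)
          positivity
        · have c1 : HasSum (fun d => P n (d - 1)) 1 :=
            (Equiv.subRight (1 : ℤ)).hasSum_iff.2 a2
          have c2 : HasSum (fun d => P (n + 1) (d + 1)) 1 :=
            (Equiv.addRight (1 : ℤ)).hasSum_iff.2 b2
          have := (c1.div_const 2).add (c2.div_const 2)
          have e : P (2 * n + 1) = fun d => P n (d - 1) / 2 + P (n + 1) (d + 1) / 2 :=
            funext fun d => P_odd n (by omega) d
          rw [e]
          norm_num at this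
          exact this

lemma W_half (c : Bool) (m : List Bool) : W c (1 / 2) m = (1 / 2 : ℝ) ^ m.length := by
  unfold W
  rw [length_eq c m, pow_add]
  norm_num

lemma D_false (m : List Bool) : D false m = - D true m := by
  unfold D
  simp

lemma hasSum_nonneg (x : ℤ) (y : ℝ) :
    HasSum (fun d : ℕ => if x = (d : ℤ) then y else 0) (if 0 ≤ x then y else 0) := by
  by_cases hx : 0 ≤ x
  · obtain ⟨n, rfl⟩ := Int.eq_ofNat_of_zero_le hx
    rw [if_pos hx]
    have := hasSum_ite_eq n y
    refine this.congr_fun ?_
    intro d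
    by_cases h : d = n
    · rw [if_pos h, if_pos (by omega)]
    · rw [if_neg h, if_neg (by omega)]
  · rw [if_neg hx]
    have : (fun d : ℕ => if x = (d : ℤ) then y else 0) = fun _ => 0 := by
      funext d
      rw [if_neg (by omega)]
    rw [this]
    exact hasSum_zero

lemma ex_subw (w : List Bool) : ex (subw w) = exits (subw w) := by
  unfold ex
  rw [if_pos (nil_subw w)]

lemma P_odd_hasSum (w : List Bool) :
    HasSum (fun d : ℕ => P (2 * val w + 1) d)
      (∑ e ∈ (exits (subw w)).filter (fun e => 0 ≤ D true e), W true (1 / 2) e) ∧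
    HasSum (fun d : ℕ => P (2 * val w + 1) (-d))
      (∑ e ∈ (exits (subw w)).filter (fun e => 0 ≤ D false e), W false (1 / 2) e) := by
  rw [P_odd_eq, sum_filter, sum_filter]
  unfold F
  rw [ex_subw]
  constructor
  · exact hasSum_sum fun e _ => hasSum_nonneg _ _
  · refine hasSum_sum fun e _ => ?_
    have := hasSum_nonneg (D false e) (W false (1 / 2) e)
    have h2 : (fun d : ℕ => if D true e = -(d : ℤ) then W true (1 / 2) e else 0) =
        fun d : ℕ => if D false e = (d : ℤ) then W false (1 / 2) e else 0 := by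
      funext d
      rw [D_false, W_half, W_half]
      by_cases h : D true e = -(d : ℤ)
      · rw [if_pos h, if_pos (by omega)]
      · rw [if_neg h, if_neg (by omega)]
    rw [h2]
    exact this

/-- the median inequality for all `t` -/
theorem median (t : ℕ) (ht : 1 ≤ t) :
    (∃ a : ℝ, HasSum (fun d : ℕ => P t d) a ∧ 1 / 2 ≤ a) ∧
      (∃ b : ℝ, HasSum (fun d : ℕ => P t (-d)) b ∧ 1 / 2 ≤ b) := by
  induction t using Nat.strong_induction_on with
  | _ t ih =>
    rcases Nat.eq_or_lt_of_le ht with h | h
    · rw [← h, P_one]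
      have h1 : (fun d : ℕ => if ((d : ℕ) : ℤ) = 0 then (1 : ℝ) else 0) =
          fun d : ℕ => if d = 0 then 1 else 0 := by
        funext d
        by_cases h : d = 0
        · rw [if_pos h, if_pos (by omega)]
        · rw [if_neg h, if_neg (by omega)]
      have h2 : (fun d : ℕ => if -((d : ℕ) : ℤ) = 0 then (1 : ℝ) else 0) =
          fun d : ℕ => if d = 0 then 1 else 0 := by
        funext d
        by_cases h : d = 0
        · rw [if_pos h, if_pos (by omega)]
        · rw [if_neg h, if_neg (by omega)]
      refine ⟨⟨1, ?_, by norm_num⟩, ⟨1, ?_, by norm_num⟩⟩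
      · rw [h1]; exact hasSum_ite_eq 0 1
      · rw [h2]; exact hasSum_ite_eq 0 1
    · obtain ⟨n, hn⟩ : ∃ n, t = 2 * n ∨ t = 2 * n + 1 := ⟨t / 2, by omega⟩
      rcases hn with rfl | rfl
      · rw [P_even n (by omega)]
        exact ih n (by omega) (by omega)
      · obtain ⟨w, rfl⟩ := exists_val n (by omega)
        obtain ⟨s1, s2⟩ := P_odd_hasSum w
        refine ⟨⟨_, s1, ?_⟩, ⟨_, s2, ?_⟩⟩
        · exact (exit_ineq true (1 / 2) le_rfl (by norm_num) (subw w) (nil_subw w) (subw_pref w)
            (subw_del w true)).1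
        · exact (exit_ineq false (1 / 2) le_rfl (by norm_num) (subw w) (nil_subw w) (subw_pref w)
            (subw_del w false)).1

/-- **Median inequality for the sum-of-digits measures, as a case of an inequality for walks
leaving a set of words.** -/
theorem result :
    -- for every `t ≥ 1`: `P_t` is a probability measure with `P_t(ℕ) ≥ 1/2` and `P_t(-ℕ) ≥ 1/2`
    (∀ t : ℕ, 1 ≤ t →
      ((∀ d, 0 ≤ P t d) ∧ HasSum (P t) 1) ∧
      1 / 2 ≤ ∑' d : ℕ, P t d ∧ 1 / 2 ≤ ∑' d : ℕ, P t (-d)) ∧
    -- the recursion for `P`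
    (P 1 = (fun d => if d = 0 then 1 else 0) ∧
      ∀ n : ℕ, 1 ≤ n → P (2 * n) = P n ∧
        ∀ d : ℤ, P (2 * n + 1) d = 1 / 2 * P n (d - 1) + 1 / 2 * P (n + 1) (d + 1)) ∧
    -- for odd `t ≥ 3` the measure `P_t` is the law of the fair walk at the first time when the
    -- word of its steps is not a subword of the word `w` of the inner digits of `t`
    (∀ (w : List Bool) (d : ℤ), P (2 * val w + 1) d =
      ∑ e ∈ (exits (subw w)).filter (fun e => D true e = d), (1 / 2 : ℝ) ^ e.length) ∧
    -- the inequality for the exit from an arbitrary finite set of words closed under taking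
    -- initial segments and under the deletion of a letter `c`
    (∀ (c : Bool) (p : ℝ), 1 / 2 ≤ p → p < 1 → ∀ L : Finset (List Bool), [] ∈ L →
      (∀ m b, m ++ [b] ∈ L → m ∈ L) → (∀ a b, a ++ c :: b ∈ L → a ++ b ∈ L) →
      ∑ e ∈ exits L, W c p e = 1 ∧
      p ≤ ∑ e ∈ (exits L).filter (fun e => 0 ≤ D c e), W c p e ∧
      (∑ e ∈ (exits L).filter (fun e => 0 ≤ D c e), W c p e = p ↔
        ((∀ m ∈ L, D c m ≠ -1) ∨
          (p = 1 / 2 ∧ ∀ a b, a ++ b ∈ L → D c (a ++ b) = -1 → a ++ c :: b ∈ L)))) := by
  refine ⟨fun t ht => ⟨P_nonneg_sum t ht, ?_⟩, ⟨P_one, fun n hn => ⟨P_even n hn, fun d => ?_⟩⟩,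
    fun w d => ?_, fun c p hp hp1 L h0 hpre hd => ⟨?_, exit_ineq c p hp hp1 L h0 hpre hd⟩⟩
  · obtain ⟨⟨a, ha, ha'⟩, ⟨b, hb, hb'⟩⟩ := median t ht
    rw [ha.tsum_eq, hb.tsum_eq]
    exact ⟨ha', hb'⟩
  · rw [P_odd n hn]; ring
  · rw [P_odd_eq]
    unfold F
    rw [ex_subw, sum_filter]
    exact sum_congr rfl fun e _ => by rw [W_half]
  · have := dynkin c p L h0 hpre (fun _ => 1)
    simp only [mul_one] at this
    rw [this]
    have : ∀ m ∈ L, W c p m * (p + (1 - p) - 1) = 0 := fun m _ => by ring
    rw [sum_congr rfl this]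
    simp

end Pool.Agent.Results.MP_23af5d_nt.MedianInequality
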